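import Pool.Agent.Helper8.AF.Cos

/-!
# Project AF: three free matrices
-/

set_option autoImplicit false

namespace Pool.Agent.Helper8.AF

open MeasureTheory Real Set
open scoped ENNReal
open Pool.Agent.Helper82.QR (cs sn)

/-- the entry of the derivative -/
noncomputable def dd (a : ℝ) (x : UnitAddCircle) : ℝ := 2 + 2 * π * a * cs x

lemma dd_meas (a : ℝ) : Measurable (dd a) := (Pool.Agent.Helper82.QR.cs_meas.const_mul _).const_add _

/-- an affine function of the entry -/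
theorem aff {a : ℝ} (ha : 1 ≤ |a|) (α β : ℝ) {M : ℝ} (hM0 : 0 < M) (hM : M ≤ max |α| |β|) :
    ∫⁻ x : UnitAddCircle, ENNReal.ofReal |dd a x * α + β| ^ (-(1 / 4) : ℝ) ≤ 18 * ENNReal.ofReal M ^ (-(1 / 4) : ℝ) := by
  have hpi := Real.pi_gt_three
  have h1 : M / 2 ≤ max |2 * π * a * α| |2 * α + β| := by
    have h2 : 6 * |α| ≤ |2 * π * a * α| := by
      rw [abs_mul, abs_mul, abs_mul, abs_two, abs_of_pos Real.pi_pos]
      have h3 : (6 : ℝ) ≤ 2 * π * |a| := by nlinarith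
      exact mul_le_mul_of_nonneg_right h3 (abs_nonneg _)
    have h3 : |β| - 2 * |α| ≤ |2 * α + β| := by
      have := abs_sub_abs_le_abs_sub β (-(2 * α))
      rw [abs_neg, sub_neg_eq_add, add_comm β, abs_mul, abs_two] at this
      exact this
    have h4 := abs_nonneg α
    rcases max_choice |α| |β| with h5 | h5
    · rw [h5] at hM
      exact le_max_of_le_left (by linarith)
    · rw [h5] at hM
      rcases le_or_gt (4 * |α|) |β| with h6 | h6
      · exact le_max_of_le_right (by linarith)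
      · exact le_max_of_le_left (by linarith)
  have h2 := negmom (2 * π * a * α) (2 * α + β) (half_pos hM0) h1
  have h3 : ∀ x : UnitAddCircle, dd a x * α + β = 2 * π * a * α * cs x + (2 * α + β) := by
    intro x
    unfold dd
    ring
  simp only [h3]
  refine h2.trans ?_
  have h4 : ENNReal.ofReal (M / 2) ^ (-(1 / 4) : ℝ) ≤ 2 * ENNReal.ofReal M ^ (-(1 / 4) : ℝ) := by
    rw [div_eq_mul_inv, mul_comm, ENNReal.ofReal_mul (by norm_num),
      ENNReal.mul_rpow_of_ne_top ENNReal.ofReal_ne_top ENNReal.ofReal_ne_top]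
    refine mul_le_mul_of_nonneg_right ?_ zero_le
    rw [ENNReal.ofReal_rpow_of_pos (by norm_num), show (2 : ℝ≥0∞) = ENNReal.ofReal 2 by norm_num]
    apply ENNReal.ofReal_le_ofReal
    rw [Real.inv_rpow (by norm_num), Real.rpow_neg (by norm_num), inv_inv]
    calc (2 : ℝ) ^ ((1 : ℝ) / 4) ≤ 2 ^ (1 : ℝ) := Real.rpow_le_rpow_of_exponent_le (by norm_num) (by norm_num)
      _ = 2 := Real.rpow_one 2
  calc 9 * ENNReal.ofReal (M / 2) ^ (-(1 / 4) : ℝ) ≤ 9 * (2 * ENNReal.ofReal M ^ (-(1 / 4) : ℝ)) :=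
        mul_le_mul_of_nonneg_left h4 zero_le
    _ = 18 * ENNReal.ofReal M ^ (-(1 / 4) : ℝ) := by
        rw [← mul_assoc]
        norm_num

/-- the same with the maximum, which may vanish -/
theorem aff' {a : ℝ} (ha : 1 ≤ |a|) (α β : ℝ) :
    ∫⁻ x : UnitAddCircle, ENNReal.ofReal |dd a x * α + β| ^ (-(1 / 4) : ℝ) ≤
      18 * ENNReal.ofReal (max |α| |β|) ^ (-(1 / 4) : ℝ) := by
  rcases (le_max_of_le_left (abs_nonneg α) : 0 ≤ max |α| |β|).eq_or_lt with h | h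
  · rw [← h, ENNReal.ofReal_zero, ENNReal.zero_rpow_of_neg (by norm_num), ENNReal.mul_top (by norm_num)]
    exact le_top
  · exact aff ha α β h le_rfl

lemma anti {x y : ℝ} (h : x ≤ y) : ENNReal.ofReal y ^ (-(1 / 4) : ℝ) ≤ ENNReal.ofReal x ^ (-(1 / 4) : ℝ) := by
  rw [ENNReal.rpow_neg, ENNReal.rpow_neg]
  exact ENNReal.inv_le_inv.2 (ENNReal.rpow_le_rpow (ENNReal.ofReal_le_ofReal h) (by norm_num))

/-- the form `uᵀ M(d₃) M(d₂) M(d₁) v`, `M(d) = [d, -1; 1, 0]` -/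
def fm (u1 u2 v1 v2 d1 d2 d3 : ℝ) : ℝ :=
  u1 * v1 * (d3 * d2 * d1 - d3 - d1) - u1 * v2 * (d3 * d2 - 1) + u2 * v1 * (d2 * d1 - 1) - u2 * v2 * d2

/-- three free matrices: no cancellation in the mean -/
theorem tri {a : ℝ} (ha : 1 ≤ |a|) {u1 u2 v1 v2 : ℝ} (hu : u1 ^ 2 + u2 ^ 2 = 1) (hv : v1 ^ 2 + v2 ^ 2 = 1) :
    ∫⁻ x3 : UnitAddCircle, ∫⁻ x2 : UnitAddCircle, ∫⁻ x1 : UnitAddCircle,
      ENNReal.ofReal |fm u1 u2 v1 v2 (dd a x1) (dd a x2) (dd a x3)| ^ (-(1 / 4) : ℝ) ≤ 18 ^ 3 * 2 := by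
  -- the coefficients
  have hone : ∀ M : ℝ, 1 / 2 ≤ M → ENNReal.ofReal M ^ (-(1 / 4) : ℝ) ≤ 2 := by
    intro M hM
    refine (anti hM).trans ?_
    rw [ENNReal.ofReal_rpow_of_pos (by norm_num), show (2 : ℝ≥0∞) = ENNReal.ofReal 2 by norm_num]
    apply ENNReal.ofReal_le_ofReal
    rw [one_div 2, Real.inv_rpow (by norm_num), Real.rpow_neg (by norm_num), inv_inv]
    calc (2 : ℝ) ^ ((1 : ℝ) / 4) ≤ 2 ^ (1 : ℝ) := Real.rpow_le_rpow_of_exponent_le (by norm_num) (by norm_num)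
      _ = 2 := Real.rpow_one 2
  -- the first variable
  have h1 : ∀ x3 x2 : UnitAddCircle, ∫⁻ x1 : UnitAddCircle,
      ENNReal.ofReal |fm u1 u2 v1 v2 (dd a x1) (dd a x2) (dd a x3)| ^ (-(1 / 4) : ℝ) ≤
      18 * ENNReal.ofReal (max |dd a x2 * (u1 * v1 * dd a x3 + u2 * v1) + -(u1 * v1)|
        |dd a x2 * (-(u1 * v2 * dd a x3) - u2 * v2) + (-(u1 * v1 * dd a x3) + u1 * v2 - u2 * v1)|) ^ (-(1 / 4) : ℝ) := by
    intro x3 x2
    have := aff' ha (dd a x2 * (u1 * v1 * dd a x3 + u2 * v1) + -(u1 * v1))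
      (dd a x2 * (-(u1 * v2 * dd a x3) - u2 * v2) + (-(u1 * v1 * dd a x3) + u1 * v2 - u2 * v1))
    refine le_trans (le_of_eq (lintegral_congr fun x1 => ?_)) this
    congr 3
    unfold fm
    ring
  have hmax : ∀ {x y : ℝ}, x ^ 2 + y ^ 2 = 1 → 1 / 2 ≤ (max |x| |y|) ^ 2 := by
    intro x y hxy
    have h2 : x ^ 2 ≤ (max |x| |y|) ^ 2 := by
      rw [← sq_abs]
      exact pow_le_pow_left₀ (abs_nonneg _) (le_max_left _ _) 2
    have h3 : y ^ 2 ≤ (max |x| |y|) ^ 2 := by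
      rw [← sq_abs y]
      exact pow_le_pow_left₀ (abs_nonneg _) (le_max_right _ _) 2
    linarith
  -- the second variable
  have h2 : ∀ x3 : UnitAddCircle, ∫⁻ x2 : UnitAddCircle, ∫⁻ x1 : UnitAddCircle,
      ENNReal.ofReal |fm u1 u2 v1 v2 (dd a x1) (dd a x2) (dd a x3)| ^ (-(1 / 4) : ℝ) ≤
      18 * 18 * ENNReal.ofReal (max |v1| |v2| * |dd a x3 * u1 + u2|) ^ (-(1 / 4) : ℝ) := by
    intro x3
    refine (lintegral_mono fun x2 => h1 x3 x2).trans ?_
    have hm : ∀ α β : ℝ, Measurable fun x2 : UnitAddCircle => ENNReal.ofReal |dd a x2 * α + β| ^ (-(1 / 4) : ℝ) := fun α β =>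
      ((((dd_meas a).mul_const α).add_const β).norm.ennreal_ofReal).pow_const _
    rcases max_choice |v1| |v2| with h3 | h3
    · calc ∫⁻ x2 : UnitAddCircle, 18 * ENNReal.ofReal (max |dd a x2 * (u1 * v1 * dd a x3 + u2 * v1) + -(u1 * v1)|
            |dd a x2 * (-(u1 * v2 * dd a x3) - u2 * v2) + (-(u1 * v1 * dd a x3) + u1 * v2 - u2 * v1)|) ^ (-(1 / 4) : ℝ) ≤
          ∫⁻ x2 : UnitAddCircle, 18 * ENNReal.ofReal |dd a x2 * (u1 * v1 * dd a x3 + u2 * v1) + -(u1 * v1)| ^ (-(1 / 4) : ℝ) :=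
            lintegral_mono fun x2 => mul_le_mul_of_nonneg_left (anti (le_max_left _ _)) zero_le
        _ = 18 * ∫⁻ x2 : UnitAddCircle, ENNReal.ofReal |dd a x2 * (u1 * v1 * dd a x3 + u2 * v1) + -(u1 * v1)| ^ (-(1 / 4) : ℝ) :=
            lintegral_const_mul _ (hm _ _)
        _ ≤ 18 * (18 * ENNReal.ofReal (max |v1| |v2| * |dd a x3 * u1 + u2|) ^ (-(1 / 4) : ℝ)) := by
            refine mul_le_mul_of_nonneg_left ((aff' ha _ _).trans (mul_le_mul_of_nonneg_left (anti ?_) zero_le)) zero_le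
            rw [h3, ← abs_mul]
            refine le_max_of_le_left (le_of_eq ?_)
            congr 1
            ring
        _ = _ := by rw [← mul_assoc]
    · calc ∫⁻ x2 : UnitAddCircle, 18 * ENNReal.ofReal (max |dd a x2 * (u1 * v1 * dd a x3 + u2 * v1) + -(u1 * v1)|
            |dd a x2 * (-(u1 * v2 * dd a x3) - u2 * v2) + (-(u1 * v1 * dd a x3) + u1 * v2 - u2 * v1)|) ^ (-(1 / 4) : ℝ) ≤
          ∫⁻ x2 : UnitAddCircle, 18 * ENNReal.ofReal
            |dd a x2 * (-(u1 * v2 * dd a x3) - u2 * v2) + (-(u1 * v1 * dd a x3) + u1 * v2 - u2 * v1)| ^ (-(1 / 4) : ℝ) :=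
            lintegral_mono fun x2 => mul_le_mul_of_nonneg_left (anti (le_max_right _ _)) zero_le
        _ = 18 * ∫⁻ x2 : UnitAddCircle, ENNReal.ofReal
            |dd a x2 * (-(u1 * v2 * dd a x3) - u2 * v2) + (-(u1 * v1 * dd a x3) + u1 * v2 - u2 * v1)| ^ (-(1 / 4) : ℝ) :=
            lintegral_const_mul _ (hm _ _)
        _ ≤ 18 * (18 * ENNReal.ofReal (max |v1| |v2| * |dd a x3 * u1 + u2|) ^ (-(1 / 4) : ℝ)) := by
            refine mul_le_mul_of_nonneg_left ((aff' ha _ _).trans (mul_le_mul_of_nonneg_left (anti ?_) zero_le)) zero_le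
            rw [h3, ← abs_mul]
            refine le_max_of_le_left (le_of_eq ?_)
            rw [← abs_neg]
            congr 1
            ring
        _ = _ := by rw [← mul_assoc]
  refine (lintegral_mono h2).trans ?_
  have hv' := hmax hv
  have hu' := hmax hu
  have hV : 0 ≤ max |v1| |v2| := le_max_of_le_left (abs_nonneg _)
  have hU : 0 ≤ max |u1| |u2| := le_max_of_le_left (abs_nonneg _)
  have e : ∀ x3 : UnitAddCircle, max |v1| |v2| * |dd a x3 * u1 + u2| =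
      |dd a x3 * (max |v1| |v2| * u1) + max |v1| |v2| * u2| := by
    intro x3
    rw [← abs_of_nonneg hV, ← abs_mul, abs_of_nonneg hV]
    congr 1
    ring
  simp only [e]
  have hm : Measurable fun x3 : UnitAddCircle =>
      ENNReal.ofReal |dd a x3 * (max |v1| |v2| * u1) + max |v1| |v2| * u2| ^ (-(1 / 4) : ℝ) :=
    ((((dd_meas a).mul_const _).add_const _).norm.ennreal_ofReal).pow_const _
  rw [lintegral_const_mul _ hm]
  have h3 := aff' ha (max |v1| |v2| * u1) (max |v1| |v2| * u2)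
  have h4 : 1 / 2 ≤ max |max |v1| |v2| * u1| |max |v1| |v2| * u2| := by
    rw [abs_mul, abs_mul, abs_of_nonneg hV, ← mul_max_of_nonneg _ _ hV]
    have h5 : (1 / 2 : ℝ) * (1 / 2) ≤ (max |v1| |v2| * max |u1| |u2|) ^ 2 := by
      rw [mul_pow]
      exact mul_le_mul hv' hu' (by norm_num) (by positivity)
    have h6 : 0 ≤ max |v1| |v2| * max |u1| |u2| := mul_nonneg hV hU
    nlinarith
  calc 18 * 18 * ∫⁻ x3 : UnitAddCircle, ENNReal.ofReal |dd a x3 * (max |v1| |v2| * u1) + max |v1| |v2| * u2| ^ (-(1 / 4) : ℝ) ≤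
      18 * 18 * (18 * 2) := mul_le_mul_of_nonneg_left (h3.trans (mul_le_mul_of_nonneg_left (hone _ h4) zero_le)) zero_le
    _ = 18 ^ 3 * 2 := by ring

end Pool.Agent.Helper8.AF
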