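import Pool.Agent.Helper95.AF.Defs
import Pool.Agent.Helper8.AF.Tri

/-!
# Project AF, blocks C1, C2: one random position
-/

set_option autoImplicit false

namespace Pool.Agent.Helper8.AF

open MeasureTheory Real Set Filter
open scoped ENNReal
open Pool.Agent.Helper82.QR (cs sn)
open Pool.Agent.Helper95.AF (ip un)

lemma ip_quarter (x : ℝ) : ip (1 / 4) x = ENNReal.ofReal x ^ (-(1 / 4) : ℝ) := rfl

/-- **C1**: one random position, with the gain from `a` -/
theorem aff_gain : ∃ K : ℝ, 1 ≤ K ∧ ∀ a x₀ s α β : ℝ, 1 ≤ |a| → 0 < s → s ≤ 1 →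
    ∫⁻ t, ip (1 / 4) |α + β * (2 + 2 * π * a * Real.cos (2 * π * (x₀ + s * t)))| ∂un ≤
      ENNReal.ofReal (K / (s * |a| ^ (1 / 4 : ℝ))) * ip (1 / 4) |β| := by
  refine ⟨9, by norm_num, fun a x₀ s α β ha hs hs1 => ?_⟩
  have ha0 : 0 < |a| := by linarith
  have hap : 0 < |a| ^ (1 / 4 : ℝ) := Real.rpow_pos_of_pos ha0 _
  rcases eq_or_ne β 0 with hβ | hβ
  · have h1 : ip (1 / 4) |β| = ⊤ := by
      rw [hβ, abs_zero, ip_quarter, ENNReal.ofReal_zero, ENNReal.zero_rpow_of_neg (by norm_num)]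
    rw [h1, ENNReal.mul_top]
    · exact le_top
    · rw [Ne, ENNReal.ofReal_eq_zero, not_le]
      positivity
  have hβ0 : 0 < |β| := abs_pos.2 hβ
  set g : UnitAddCircle → ℝ≥0∞ := fun x => ENNReal.ofReal |2 * π * a * β * cs x + (2 * β + α)| ^ (-(1 / 4) : ℝ) with hg
  have hgm : Measurable g :=
    (((Pool.Agent.Helper82.QR.cs_meas.const_mul _).add_const _).norm.ennreal_ofReal).pow_const _
  have h1 : ∫⁻ t, ip (1 / 4) |α + β * (2 + 2 * π * a * Real.cos (2 * π * (x₀ + s * t)))| ∂un =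
      ∫⁻ u in Ioc (0 : ℝ) 1, g ((x₀ : UnitAddCircle) + ((s * u : ℝ) : UnitAddCircle)) := by
    unfold un
    rw [setLIntegral_congr Ioc_ae_eq_Icc.symm]
    refine lintegral_congr fun t => ?_
    rw [ip_quarter, hg]
    simp only
    rw [← AddCircle.coe_add, Pool.Agent.Helper82.QR.cs_coe]
    congr 3
    ring
  rw [h1]
  refine (arc hgm _ hs hs1).trans ?_
  have h2 : ∫⁻ x, g x ≤ 9 * ENNReal.ofReal (|a| * |β|) ^ (-(1 / 4) : ℝ) := by
    refine negmom _ _ (by positivity) (le_max_of_le_left ?_)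
    rw [abs_mul, abs_mul, abs_mul, abs_two, abs_of_pos Real.pi_pos, mul_assoc (2 * π)]
    have h3 := Real.pi_gt_three
    have h4 : 0 ≤ |a| * |β| := by positivity
    nlinarith
  refine (mul_le_mul_of_nonneg_left h2 zero_le).trans (le_of_eq ?_)
  rw [ENNReal.ofReal_mul ha0.le, ENNReal.mul_rpow_of_ne_top ENNReal.ofReal_ne_top ENNReal.ofReal_ne_top, ip_quarter]
  have h5 : ENNReal.ofReal |a| ^ (-(1 / 4) : ℝ) = ENNReal.ofReal (|a| ^ (1 / 4 : ℝ))⁻¹ := by
    rw [ENNReal.ofReal_rpow_of_pos ha0, Real.rpow_neg ha0.le]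
  have h6 : (9 : ℝ≥0∞) = ENNReal.ofReal 9 := by norm_num
  rw [h5, h6, ← mul_assoc, ← mul_assoc, ← ENNReal.ofReal_mul (by positivity), ← ENNReal.ofReal_mul (by positivity)]
  congr 2
  field_simp

/-- Hoelder's inequality for a set of finite measure -/
lemma holder {μ : Measure ℝ} {f : ℝ → ℝ≥0∞} (hf : AEMeasurable f μ) {c : ℝ} (hc0 : 0 < c) (hc1 : c ≤ 1) :
    ∫⁻ x, f x ^ c ∂μ ≤ (∫⁻ x, f x ∂μ) ^ c * μ univ ^ (1 - c) := by
  rcases hc1.eq_or_lt with h | h
  · rw [h]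
    simp
  have hpq : (1 / c).HolderConjugate (1 / (1 - c)) := by
    rw [Real.holderConjugate_iff]
    constructor
    · rw [lt_div_iff₀ hc0]
      linarith
    · rw [one_div, inv_inv, one_div, inv_inv]
      ring
  have h1 := ENNReal.lintegral_mul_le_Lp_mul_Lq μ hpq (hf.pow_const c) (aemeasurable_const (b := (1 : ℝ≥0∞)))
  have h2 : ∀ x, (f x ^ c) ^ c⁻¹ = f x := by
    intro x
    rw [← ENNReal.rpow_mul, mul_inv_cancel₀ hc0.ne', ENNReal.rpow_one]
  simp only [Pi.mul_apply, mul_one, one_div, inv_inv, ENNReal.one_rpow, lintegral_const, one_mul, h2] at h1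
  exact h1

/-- **C2**: one random position -/
theorem aff_int : ∃ K : ℝ, 1 ≤ K ∧ ∀ a x₀ R p α β : ℝ, 1 ≤ |a| → 0 < R → R ≤ 1 / 2 → 0 < p → p ≤ 1 / 4 →
    ∫⁻ x in Icc (x₀ - R) (x₀ + R), ip p |α + β * (2 + 2 * π * a * Real.cos (2 * π * x))| ≤
      ENNReal.ofReal (2 * R * (K / R) ^ (4 * p)) * ip p (max |α| |β|) := by
  refine ⟨9, by norm_num, fun a x₀ R p α β ha hR hR2 hp hp4 => ?_⟩
  set f : ℝ → ℝ≥0∞ := fun x => ip (1 / 4) |α + β * (2 + 2 * π * a * Real.cos (2 * π * x))| with hf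
  have hfm : Measurable f := by
    have : Measurable fun x : ℝ => |α + β * (2 + 2 * π * a * Real.cos (2 * π * x))| := by fun_prop
    exact this.ennreal_ofReal.pow_const _
  have hip : ∀ x : ℝ, ip p x = ip (1 / 4) x ^ (4 * p) := by
    intro x
    unfold ip
    rw [← ENNReal.rpow_mul]
    congr 1
    ring
  have h0 : ∫⁻ x in Icc (x₀ - R) (x₀ + R), ip p |α + β * (2 + 2 * π * a * Real.cos (2 * π * x))| =
      ∫⁻ x in Icc (x₀ - R) (x₀ + R), f x ^ (4 * p) := lintegral_congr fun x => hip _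
  rw [h0]
  refine (holder hfm.aemeasurable (by linarith) (by linarith)).trans ?_
  -- the moment of order `- 1 / 4`
  set g : UnitAddCircle → ℝ≥0∞ := fun x => ENNReal.ofReal |dd a x * β + α| ^ (-(1 / 4) : ℝ) with hg
  have hgm : Measurable g := ((((dd_meas a).mul_const _).add_const _).norm.ennreal_ofReal).pow_const _
  have h1 : ∫⁻ x in Icc (x₀ - R) (x₀ + R), f x ≤ 18 * ip (1 / 4) (max |α| |β|) := by
    calc ∫⁻ x in Icc (x₀ - R) (x₀ + R), f x ≤ ∫⁻ x in Icc (x₀ - 1 / 2) (x₀ - 1 / 2 + 1), f x :=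
          lintegral_mono_set (Icc_subset_Icc (by linarith) (by linarith))
      _ = ∫⁻ x in Ioc (x₀ - 1 / 2) (x₀ - 1 / 2 + 1), f x := by rw [setLIntegral_congr Ioc_ae_eq_Icc.symm]
      _ = ∫⁻ x in Ioc (x₀ - 1 / 2) (x₀ - 1 / 2 + 1), g (x : UnitAddCircle) := by
          refine lintegral_congr fun t => ?_
          rw [hf, hg]
          simp only
          rw [ip_quarter]
          unfold dd
          rw [Pool.Agent.Helper82.QR.cs_coe]
          congr 3
          ring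
      _ = ∫⁻ x, g x := (UnitAddCircle.measurePreserving_mk (x₀ - 1 / 2)).lintegral_comp hgm
      _ ≤ 18 * ENNReal.ofReal (max |β| |α|) ^ (-(1 / 4) : ℝ) := aff' ha β α
      _ = _ := by rw [max_comm, ip_quarter]
  have h2 : (volume.restrict (Icc (x₀ - R) (x₀ + R))) univ = ENNReal.ofReal (2 * R) := by
    rw [Measure.restrict_apply MeasurableSet.univ, univ_inter, Real.volume_Icc]
    congr 1
    ring
  rw [h2]
  calc (∫⁻ x in Icc (x₀ - R) (x₀ + R), f x) ^ (4 * p) * ENNReal.ofReal (2 * R) ^ (1 - 4 * p) ≤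
      (18 * ip (1 / 4) (max |α| |β|)) ^ (4 * p) * ENNReal.ofReal (2 * R) ^ (1 - 4 * p) :=
        mul_le_mul_of_nonneg_right (ENNReal.rpow_le_rpow h1 (by linarith)) zero_le
    _ = (18 ^ (4 * p) * ENNReal.ofReal (2 * R) ^ (1 - 4 * p)) * ip p (max |α| |β|) := by
        rw [ENNReal.mul_rpow_of_nonneg _ _ (by linarith : 0 ≤ 4 * p), ← hip]
        ring
    _ = _ := by
        congr 1
        rw [show (18 : ℝ≥0∞) = ENNReal.ofReal 18 by norm_num, ENNReal.ofReal_rpow_of_pos (by norm_num),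
          ENNReal.ofReal_rpow_of_pos (by positivity), ← ENNReal.ofReal_mul (by positivity)]
        congr 1
        rw [Real.rpow_sub (by positivity), Real.rpow_one]
        have h3 : (18 : ℝ) ^ (4 * p) = (9 / R) ^ (4 * p) * (2 * R) ^ (4 * p) := by
          rw [← Real.mul_rpow (by positivity) (by positivity)]
          congr 1
          field_simp
          norm_num
        rw [h3]
        have h4 : 0 < (2 * R) ^ (4 * p) := by positivity
        field_simp

end Pool.Agent.Helper8.AF
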