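import Pool.Agent.Helper95.AF.Defs

/-!
# Project AF: five positions after five noise steps, in the plane
-/

set_option autoImplicit false

namespace Pool.Agent.Helper8.AF

open MeasureTheory Real Set Filter
open scoped ENNReal
open Pool.Agent.Helper18.UC (nn LL sqo rep toT)
open Pool.Agent.Helper95.AF (st po mt pM ip un un5 up5 Den)

lemma un_prob : IsProbabilityMeasure un := by
  refine ⟨?_⟩
  unfold un
  rw [Measure.restrict_apply MeasurableSet.univ, univ_inter, Real.volume_Icc]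
  simp

lemma un_sigma : SigmaFinite un := by
  have := un_prob
  infer_instance

/-- change of variables on the line -/
lemma lint_aff {f : ℝ → ℝ≥0∞} (hf : Measurable f) (c : ℝ) {s : ℝ} (hs : 0 < s) :
    ∫⁻ u, f (c + s * u) = ENNReal.ofReal s⁻¹ * ∫⁻ x, f x := by
  have h1 : ∫⁻ u, f (c + s * u) = ∫⁻ v, f (c + v) ∂(Measure.map (fun u : ℝ => s * u) volume) := by
    rw [lintegral_map (f := fun v => f (c + v)) (hf.comp (measurable_const_add c)) (measurable_const_mul s)]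
  rw [h1, Real.map_volume_mul_left hs.ne', lintegral_smul_measure, abs_of_pos (inv_pos.2 hs),
    lintegral_add_left_eq_self f c, smul_eq_mul]

/-- one step -/
lemma step1 {F G : ℝ → ℝ≥0∞} (hF : Measurable F) {c s : ℝ} (hs : 0 < s) {I : Set ℝ} (hI : MeasurableSet I) {K : ℝ≥0∞}
    (hc : ∀ u ∈ Icc (0 : ℝ) 1, c + s * u ∈ I ∧ G (c + s * u) ≤ K * F (c + s * u)) :
    ∫⁻ u, G (c + s * u) ∂un ≤ ENNReal.ofReal s⁻¹ * K * ∫⁻ x in I, F x := by
  unfold un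
  have hm : Measurable fun x => K * I.indicator F x := (hF.indicator hI).const_mul K
  calc ∫⁻ u in Icc (0 : ℝ) 1, G (c + s * u) ≤ ∫⁻ u in Icc (0 : ℝ) 1, K * I.indicator F (c + s * u) := by
        refine setLIntegral_mono' measurableSet_Icc fun u hu => ?_
        rw [indicator_of_mem (hc u hu).1]
        exact (hc u hu).2
    _ ≤ ∫⁻ u, K * I.indicator F (c + s * u) := setLIntegral_le_lintegral _ _
    _ = ENNReal.ofReal s⁻¹ * ∫⁻ x, K * I.indicator F x := lint_aff hm c hs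
    _ = _ := by
        rw [lintegral_const_mul K (hF.indicator hI), lintegral_indicator hI, mul_assoc]

/-- the first coordinate of the next point, without noise -/
noncomputable def gg (a β x y : ℝ) : ℝ := 2 * x - y + a * Real.sin (2 * π * x) + β

lemma gg_dist (a β x y x' y' : ℝ) : |gg a β x y - gg a β x' y'| ≤ (2 + 2 * π * |a|) * |x - x'| + |y - y'| := by
  have h1 : |Real.sin (2 * π * x) - Real.sin (2 * π * x')| ≤ 2 * π * |x - x'| := by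
    have h2 := Real.abs_sin_sub_sin_le (2 * π * x) (2 * π * x')
    refine h2.trans (le_of_eq ?_)
    rw [← mul_sub, abs_mul, abs_of_pos (by positivity)]
  have e : gg a β x y - gg a β x' y' = 2 * (x - x') + -(y - y') + a * (Real.sin (2 * π * x) - Real.sin (2 * π * x')) := by
    unfold gg
    ring
  rw [e]
  refine (abs_add_le _ _).trans ?_
  have h3 : |2 * (x - x') + -(y - y')| ≤ 2 * |x - x'| + |y - y'| := by
    refine (abs_add_le _ _).trans ?_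
    rw [abs_mul, abs_two, abs_neg]
  have h4 : |a * (Real.sin (2 * π * x) - Real.sin (2 * π * x'))| ≤ |a| * (2 * π * |x - x'|) := by
    rw [abs_mul]
    exact mul_le_mul_of_nonneg_left h1 (abs_nonneg _)
  linarith

/-- nested integrals -/
theorem nest {a ρ s : ℝ} (hρ : 0 < ρ) (hs : s = ρ / (10 * (|a| + 1)) ^ 5) (β0 β1 β2 β3 β4 : ℝ) (z : ℝ × ℝ)
    {y1 y2 y3 y4 y5 : ℝ} (h1 : y1 = gg a β0 z.1 z.2) (h2 : y2 = gg a β1 y1 z.1) (h3 : y3 = gg a β2 y2 y1)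
    (h4 : y4 = gg a β3 y3 y2) (h5 : y5 = gg a β4 y4 y3) {Φ : ℝ × ℝ × ℝ × (ℝ × ℝ) → ℝ≥0∞} (hΦ : Measurable Φ) :
    ∫⁻ u0, (fun x1 => ∫⁻ u1, (fun x2 => ∫⁻ u2, (fun x3 => ∫⁻ u3, (fun x4 => ∫⁻ u4, (fun x5 => Φ (x1, x2, x3, (x5, x4)))
      (gg a β4 x4 x3 + s * u4) ∂un) (gg a β3 x3 x2 + s * u3) ∂un) (gg a β2 x2 x1 + s * u2) ∂un)
      (gg a β1 x1 z.1 + s * u1) ∂un) (gg a β0 z.1 z.2 + s * u0) ∂un ≤
      ENNReal.ofReal s⁻¹ ^ 5 * ∫⁻ x1 in Icc (y1 - ρ / 2) (y1 + ρ / 2), ∫⁻ x2 in Icc (y2 - ρ / 2) (y2 + ρ / 2),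
        ∫⁻ x3 in Icc (y3 - ρ / 2) (y3 + ρ / 2), ∫⁻ x4 in Ico (y4 - ρ / 2) (y4 - ρ / 2 + ρ),
          ∫⁻ x5 in Ico (y5 - ρ / 2) (y5 - ρ / 2 + ρ), Φ (x1, x2, x3, (x5, x4)) := by
  have hπ := Real.pi_gt_three
  have hπ' := Real.pi_lt_d2
  have ha := abs_nonneg a
  set A : ℝ := 10 * (|a| + 1) with hA
  have hA10 : 10 ≤ A := by linarith
  have hA0 : 0 < A := by linarith
  have hs0 : 0 < s := by rw [hs]; positivity
  set L : ℝ := 2 + 2 * π * |a| with hL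
  have hL0 : 0 ≤ L := by positivity
  have hLA : L ≤ 7 / 10 * A := by
    rw [hL, hA]
    nlinarith
  have hrec : ∀ k : ℕ, L * (A ^ (k + 1) * s) + A ^ k * s + s ≤ A ^ (k + 2) * s := by
    intro k
    have e1 : A ^ (k + 2) * s = A * (A ^ (k + 1) * s) := by ring
    have e2 : A ^ (k + 1) * s = A * (A ^ k * s) := by ring
    have h7 : 0 < A ^ k * s := by positivity
    have h8 : s ≤ A ^ k * s := le_mul_of_one_le_left hs0.le (one_le_pow₀ (by linarith))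
    rw [e1, e2]
    nlinarith [mul_le_mul_of_nonneg_right hLA (by positivity : 0 ≤ A * (A ^ k * s)),
      mul_le_mul_of_nonneg_right hA10 h7.le, mul_le_mul_of_nonneg_right hA10 (by positivity : 0 ≤ A * (A ^ k * s))]
  have hR5 : A ^ 5 * s = ρ := by
    rw [hs]
    field_simp
  have hR4 : A ^ 4 * s ≤ ρ / 10 := by
    have e : A ^ 5 * s = A * (A ^ 4 * s) := by ring
    have : 0 < A ^ 4 * s := by positivity
    nlinarith
  have hle : ∀ k : ℕ, k ≤ 4 → A ^ k * s ≤ ρ / 10 := fun k hk =>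
    le_trans (mul_le_mul_of_nonneg_right (pow_le_pow_right₀ (by linarith) hk) hs0.le) hR4
  -- errors
  have hstep : ∀ {β x y x' y' : ℝ} (k : ℕ), |x - x'| ≤ A ^ (k + 1) * s → |y - y'| ≤ A ^ k * s →
      ∀ u ∈ Icc (0 : ℝ) 1, |gg a β x y + s * u - gg a β x' y'| ≤ A ^ (k + 2) * s := by
    intro β x y x' y' k hx hy u hu
    have h6 := gg_dist a β x y x' y'
    have h7 : |gg a β x y + s * u - gg a β x' y'| ≤ |gg a β x y - gg a β x' y'| + s := by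
      have e : gg a β x y + s * u - gg a β x' y' = (gg a β x y - gg a β x' y') + s * u := by ring
      rw [e]
      refine (abs_add_le _ _).trans ?_
      have : |s * u| ≤ s := by
        rw [abs_of_nonneg (mul_nonneg hs0.le hu.1)]
        nlinarith [hu.2]
      linarith
    have h8 := mul_le_mul_of_nonneg_left hx hL0
    have h9 := hrec k
    linarith
  have hin : ∀ {x y : ℝ} {k : ℕ}, k ≤ 4 → |x - y| ≤ A ^ k * s → x ∈ Icc (y - ρ / 2) (y + ρ / 2) := by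
    intro x y k hk h
    have h6 := abs_le.1 (h.trans (hle k hk))
    constructor <;> linarith
  have hin' : ∀ {x y : ℝ} {k : ℕ}, k ≤ 4 → |x - y| ≤ A ^ k * s → x ∈ Ico (y - ρ / 2) (y - ρ / 2 + ρ) := by
    intro x y k hk h
    have h6 := abs_le.1 (h.trans (hle k hk))
    constructor <;> linarith
  -- measurability
  set I1 := Icc (y1 - ρ / 2) (y1 + ρ / 2)
  set I2 := Icc (y2 - ρ / 2) (y2 + ρ / 2)
  set I3 := Icc (y3 - ρ / 2) (y3 + ρ / 2)
  set J4 := Ico (y4 - ρ / 2) (y4 - ρ / 2 + ρ)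
  set J5 := Ico (y5 - ρ / 2) (y5 - ρ / 2 + ρ)
  have M5 : ∀ x1 x2 x3 x4, Measurable fun x5 => Φ (x1, x2, x3, (x5, x4)) := fun x1 x2 x3 x4 =>
    hΦ.comp (by fun_prop)
  have M4 : ∀ x1 x2 x3, Measurable fun x4 => ∫⁻ x5 in J5, Φ (x1, x2, x3, (x5, x4)) := by
    intro x1 x2 x3
    exact Measurable.lintegral_prod_right' (f := fun p : ℝ × ℝ => Φ (x1, x2, x3, (p.2, p.1))) (hΦ.comp (by fun_prop))
  have M3 : ∀ x1 x2, Measurable fun x3 => ∫⁻ x4 in J4, ∫⁻ x5 in J5, Φ (x1, x2, x3, (x5, x4)) := by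
    intro x1 x2
    refine Measurable.lintegral_prod_right' (f := fun p : ℝ × ℝ => ∫⁻ x5 in J5, Φ (x1, x2, p.1, (x5, p.2))) ?_
    exact Measurable.lintegral_prod_right' (f := fun p : (ℝ × ℝ) × ℝ => Φ (x1, x2, p.1.1, (p.2, p.1.2))) (hΦ.comp (by fun_prop))
  have M2 : ∀ x1, Measurable fun x2 => ∫⁻ x3 in I3, ∫⁻ x4 in J4, ∫⁻ x5 in J5, Φ (x1, x2, x3, (x5, x4)) := by
    intro x1
    refine Measurable.lintegral_prod_right' (f := fun p : ℝ × ℝ => ∫⁻ x4 in J4, ∫⁻ x5 in J5, Φ (x1, p.1, p.2, (x5, x4))) ?_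
    refine Measurable.lintegral_prod_right' (f := fun p : (ℝ × ℝ) × ℝ => ∫⁻ x5 in J5, Φ (x1, p.1.1, p.1.2, (x5, p.2))) ?_
    exact Measurable.lintegral_prod_right' (f := fun p : ((ℝ × ℝ) × ℝ) × ℝ => Φ (x1, p.1.1.1, p.1.1.2, (p.2, p.1.2)))
      (hΦ.comp (by fun_prop))
  have M1 : Measurable fun x1 => ∫⁻ x2 in I2, ∫⁻ x3 in I3, ∫⁻ x4 in J4, ∫⁻ x5 in J5, Φ (x1, x2, x3, (x5, x4)) := by
    refine Measurable.lintegral_prod_right' (f := fun p : ℝ × ℝ =>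
      ∫⁻ x3 in I3, ∫⁻ x4 in J4, ∫⁻ x5 in J5, Φ (p.1, p.2, x3, (x5, x4))) ?_
    refine Measurable.lintegral_prod_right' (f := fun p : (ℝ × ℝ) × ℝ =>
      ∫⁻ x4 in J4, ∫⁻ x5 in J5, Φ (p.1.1, p.1.2, p.2, (x5, x4))) ?_
    refine Measurable.lintegral_prod_right' (f := fun p : ((ℝ × ℝ) × ℝ) × ℝ =>
      ∫⁻ x5 in J5, Φ (p.1.1.1, p.1.1.2, p.1.2, (x5, p.2))) ?_
    exact Measurable.lintegral_prod_right' (f := fun p : (((ℝ × ℝ) × ℝ) × ℝ) × ℝ =>
      Φ (p.1.1.1.1, p.1.1.1.2, p.1.1.2, (p.2, p.1.2))) (hΦ.comp (by fun_prop))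
  -- the last step
  have s5 : ∀ x1 x2 x3 x4, |x3 - y3| ≤ A ^ 2 * s → |x4 - y4| ≤ A ^ 3 * s →
      ∫⁻ u4, (fun x5 => Φ (x1, x2, x3, (x5, x4))) (gg a β4 x4 x3 + s * u4) ∂un ≤
        ENNReal.ofReal s⁻¹ * ∫⁻ x5 in J5, Φ (x1, x2, x3, (x5, x4)) := by
    intro x1 x2 x3 x4 e3 e4
    have h6 := step1 (M5 x1 x2 x3 x4) (c := gg a β4 x4 x3) hs0 (measurableSet_Ico (a := y5 - ρ / 2) (b := y5 - ρ / 2 + ρ))
      (K := 1) (G := fun x5 => Φ (x1, x2, x3, (x5, x4))) (fun u hu => ⟨by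
        refine hin' (k := 4) le_rfl ?_
        rw [h5]
        exact hstep 2 e4 e3 u hu, by rw [one_mul]⟩)
    rwa [mul_one] at h6
  have s4 : ∀ x1 x2 x3, |x2 - y2| ≤ A ^ 1 * s → |x3 - y3| ≤ A ^ 2 * s →
      ∫⁻ u3, (fun x4 => ∫⁻ u4, (fun x5 => Φ (x1, x2, x3, (x5, x4))) (gg a β4 x4 x3 + s * u4) ∂un)
        (gg a β3 x3 x2 + s * u3) ∂un ≤
        ENNReal.ofReal s⁻¹ * ENNReal.ofReal s⁻¹ * ∫⁻ x4 in J4, ∫⁻ x5 in J5, Φ (x1, x2, x3, (x5, x4)) := by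
    intro x1 x2 x3 e2 e3
    refine step1 (G := fun x4 => ∫⁻ u4, (fun x5 => Φ (x1, x2, x3, (x5, x4))) (gg a β4 x4 x3 + s * u4) ∂un)
      (c := gg a β3 x3 x2) (M4 x1 x2 x3) hs0 (measurableSet_Ico (a := y4 - ρ / 2) (b := y4 - ρ / 2 + ρ)) (fun u hu => ?_)
    have h6 : |gg a β3 x3 x2 + s * u - y4| ≤ A ^ 3 * s := by
      rw [h4]
      exact hstep 1 e3 e2 u hu
    exact ⟨hin' (by norm_num) h6, s5 x1 x2 x3 _ e3 h6⟩
  have s3 : ∀ x1 x2, |x1 - y1| ≤ A ^ 0 * s → |x2 - y2| ≤ A ^ 1 * s →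
      ∫⁻ u2, (fun x3 => ∫⁻ u3, (fun x4 => ∫⁻ u4, (fun x5 => Φ (x1, x2, x3, (x5, x4))) (gg a β4 x4 x3 + s * u4) ∂un)
        (gg a β3 x3 x2 + s * u3) ∂un) (gg a β2 x2 x1 + s * u2) ∂un ≤
        ENNReal.ofReal s⁻¹ * (ENNReal.ofReal s⁻¹ * ENNReal.ofReal s⁻¹) *
          ∫⁻ x3 in I3, ∫⁻ x4 in J4, ∫⁻ x5 in J5, Φ (x1, x2, x3, (x5, x4)) := by
    intro x1 x2 e1 e2
    refine step1 (G := fun x3 => ∫⁻ u3, (fun x4 => ∫⁻ u4, (fun x5 => Φ (x1, x2, x3, (x5, x4))) (gg a β4 x4 x3 + s * u4) ∂un)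
        (gg a β3 x3 x2 + s * u3) ∂un)
      (c := gg a β2 x2 x1) (M3 x1 x2) hs0 (measurableSet_Icc (a := y3 - ρ / 2) (b := y3 + ρ / 2)) (fun u hu => ?_)
    have h6 : |gg a β2 x2 x1 + s * u - y3| ≤ A ^ 2 * s := by
      rw [h3]
      exact hstep 0 e2 e1 u hu
    exact ⟨hin (by norm_num) h6, s4 x1 x2 _ e2 h6⟩
  have s2 : ∀ x1, |x1 - y1| ≤ A ^ 0 * s →
      ∫⁻ u1, (fun x2 => ∫⁻ u2, (fun x3 => ∫⁻ u3, (fun x4 => ∫⁻ u4, (fun x5 => Φ (x1, x2, x3, (x5, x4)))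
        (gg a β4 x4 x3 + s * u4) ∂un) (gg a β3 x3 x2 + s * u3) ∂un) (gg a β2 x2 x1 + s * u2) ∂un)
        (gg a β1 x1 z.1 + s * u1) ∂un ≤
        ENNReal.ofReal s⁻¹ * (ENNReal.ofReal s⁻¹ * (ENNReal.ofReal s⁻¹ * ENNReal.ofReal s⁻¹)) *
          ∫⁻ x2 in I2, ∫⁻ x3 in I3, ∫⁻ x4 in J4, ∫⁻ x5 in J5, Φ (x1, x2, x3, (x5, x4)) := by
    intro x1 e1
    refine step1 (G := fun x2 => ∫⁻ u2, (fun x3 => ∫⁻ u3, (fun x4 => ∫⁻ u4, (fun x5 => Φ (x1, x2, x3, (x5, x4)))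
        (gg a β4 x4 x3 + s * u4) ∂un) (gg a β3 x3 x2 + s * u3) ∂un) (gg a β2 x2 x1 + s * u2) ∂un)
      (c := gg a β1 x1 z.1) (M2 x1) hs0 (measurableSet_Icc (a := y2 - ρ / 2) (b := y2 + ρ / 2)) (fun u hu => ?_)
    have h6 : |gg a β1 x1 z.1 + s * u - y2| ≤ A ^ 1 * s := by
      have h7 := gg_dist a β1 x1 z.1 y1 z.1
      have h8 : |gg a β1 x1 z.1 + s * u - y2| ≤ |gg a β1 x1 z.1 - gg a β1 y1 z.1| + s := by
        rw [h2]
        have e : gg a β1 x1 z.1 + s * u - gg a β1 y1 z.1 = (gg a β1 x1 z.1 - gg a β1 y1 z.1) + s * u := by ring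
        rw [e]
        refine (abs_add_le _ _).trans ?_
        have : |s * u| ≤ s := by
          rw [abs_of_nonneg (mul_nonneg hs0.le hu.1)]
          nlinarith [hu.2]
        linarith
      rw [sub_self, abs_zero, add_zero] at h7
      rw [pow_zero, one_mul] at e1
      have h9 := mul_le_mul_of_nonneg_left e1 hL0
      have h10 := mul_le_mul_of_nonneg_right hLA hs0.le
      rw [pow_one]
      nlinarith
    exact ⟨hin (by norm_num) h6, s3 x1 _ e1 h6⟩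
  have s1 := step1 (G := fun x1 => ∫⁻ u1, (fun x2 => ∫⁻ u2, (fun x3 => ∫⁻ u3, (fun x4 => ∫⁻ u4,
      (fun x5 => Φ (x1, x2, x3, (x5, x4))) (gg a β4 x4 x3 + s * u4) ∂un) (gg a β3 x3 x2 + s * u3) ∂un)
      (gg a β2 x2 x1 + s * u2) ∂un) (gg a β1 x1 z.1 + s * u1) ∂un)
    M1 (c := gg a β0 z.1 z.2) hs0 (measurableSet_Icc (a := y1 - ρ / 2) (b := y1 + ρ / 2))
    (K := ENNReal.ofReal s⁻¹ * (ENNReal.ofReal s⁻¹ * (ENNReal.ofReal s⁻¹ * ENNReal.ofReal s⁻¹))) (fun u hu => by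
      have h6 : |gg a β0 z.1 z.2 + s * u - y1| ≤ A ^ 0 * s := by
        rw [h1, add_sub_cancel_left, pow_zero, one_mul, abs_of_nonneg (mul_nonneg hs0.le hu.1)]
        nlinarith [hu.2]
      exact ⟨hin (by norm_num) h6, s2 _ h6⟩)
  refine s1.trans (le_of_eq ?_)
  ring

/-- the first coordinate separately -/
lemma pi_succ (n : ℕ) {F : (Fin (n + 1) → ℝ) → ℝ≥0∞} (hF : Measurable F) :
    ∫⁻ t, F t ∂(Measure.pi fun _ : Fin (n + 1) => un) =
      ∫⁻ u, ∫⁻ t', F (Fin.cons u t') ∂(Measure.pi fun _ : Fin n => un) ∂un := by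
  have := un_prob
  have h1 := (measurePreserving_piFinSuccAbove (fun _ : Fin (n + 1) => un) 0).symm
  rw [← h1.lintegral_comp hF, lintegral_prod (fun p => F ((MeasurableEquiv.piFinSuccAbove (fun _ => ℝ) 0).symm p))
    (hF.comp (MeasurableEquiv.measurable _)).aemeasurable]
  refine lintegral_congr fun u => lintegral_congr fun t' => ?_
  have e : (MeasurableEquiv.piFinSuccAbove (fun _ : Fin (n + 1) => ℝ) 0).symm (u, t') = Fin.cons u t' := by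
    apply (MeasurableEquiv.piFinSuccAbove (fun _ : Fin (n + 1) => ℝ) 0).injective
    rw [MeasurableEquiv.apply_symm_apply]
    refine Prod.ext ?_ ?_
    · rfl
    · funext j
      rfl
  rw [e]

lemma pi_zero (F : (Fin 0 → ℝ) → ℝ≥0∞) : ∫⁻ t, F t ∂(Measure.pi fun _ : Fin 0 => un) = F ![] := by
  have := un_prob
  rw [lintegral_unique, measure_univ, mul_one]
  congr 1

lemma un5_nest {F : (Fin 5 → ℝ) → ℝ≥0∞} (hF : Measurable F) :
    ∫⁻ t, F t ∂un5 = ∫⁻ u0, ∫⁻ u1, ∫⁻ u2, ∫⁻ u3, ∫⁻ u4, F ![u0, u1, u2, u3, u4] ∂un ∂un ∂un ∂un ∂un := by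
  have hc : ∀ (n : ℕ) (u : ℝ), Measurable fun t : Fin n → ℝ => (Fin.cons u t : Fin (n + 1) → ℝ) := by
    intro n u
    rw [measurable_pi_iff]
    intro i
    refine Fin.cases ?_ (fun j => ?_) i
    · simp only [Fin.cons_zero]
      exact measurable_const
    · simp only [Fin.cons_succ]
      exact measurable_pi_apply j
  unfold un5
  rw [pi_succ 4 hF]
  refine lintegral_congr fun u0 => ?_
  refine (pi_succ 3 (F := fun t => F (Fin.cons u0 t)) (hF.comp (hc 4 u0))).trans ?_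
  refine lintegral_congr fun u1 => ?_
  refine (pi_succ 2 (F := fun t => F (Fin.cons u0 (Fin.cons u1 t))) ((hF.comp (hc 4 u0)).comp (hc 3 u1))).trans ?_
  refine lintegral_congr fun u2 => ?_
  refine (pi_succ 1 (F := fun t => F (Fin.cons u0 (Fin.cons u1 (Fin.cons u2 t))))
    (((hF.comp (hc 4 u0)).comp (hc 3 u1)).comp (hc 2 u2))).trans ?_
  refine lintegral_congr fun u3 => ?_
  refine (pi_succ 0 (F := fun t => F (Fin.cons u0 (Fin.cons u1 (Fin.cons u2 (Fin.cons u3 t)))))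
    ((((hF.comp (hc 4 u0)).comp (hc 3 u1)).comp (hc 2 u2)).comp (hc 1 u3))).trans ?_
  refine lintegral_congr fun u4 => ?_
  rw [pi_zero]
  rfl

lemma po_congr {a : ℝ} {b b' : ℕ → ℝ} {m : ℕ} (h : ∀ j < m, b j = b' j) (q : ℝ × ℝ) : po a b m q = po a b' m q := by
  induction m with
  | zero => rfl
  | succ m ih =>
    show st a (b m) (po a b m q) = st a (b' m) (po a b' m q)
    rw [ih fun j hj => h j (by omega), h m (by omega)]

lemma up5_lt (b : ℕ → ℝ) (m : ℕ) (s : ℝ) (t : Fin 5 → ℝ) {j : ℕ} (hj : j < m) : up5 b m s t j = b j := by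
  unfold up5
  rw [dif_neg (by omega), add_zero]

lemma up5_at (b : ℕ → ℝ) (m : ℕ) (s : ℝ) (t : Fin 5 → ℝ) (k : ℕ) (hk : k < 5) :
    up5 b m s t (m + k) = b (m + k) + s * t ⟨k, hk⟩ := by
  unfold up5
  rw [dif_pos ⟨by omega, by omega⟩]
  congr 3
  ext
  simp

lemma po_cont (a : ℝ) (b : ℕ → ℝ) (m : ℕ) (s : ℝ) (q : ℝ × ℝ) (k : ℕ) :
    Continuous fun t : Fin 5 → ℝ => po a (up5 b m s t) k q := by
  induction k with
  | zero => exact continuous_const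
  | succ k ih =>
    have h1 : Continuous fun t : Fin 5 → ℝ => up5 b m s t k := by
      unfold up5
      split_ifs
      · fun_prop
      · fun_prop
    show Continuous fun t : Fin 5 → ℝ => st a (up5 b m s t k) (po a (up5 b m s t) k q)
    unfold st
    fun_prop

/-- **five noise steps**: the positions at the times `m + 1, .., m + 5` -/
theorem five {a ρ s : ℝ} (hρ : 0 < ρ) (hs : s = ρ / (10 * (|a| + 1)) ^ 5) (b : ℕ → ℝ) (m : ℕ) (q : ℝ × ℝ) :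
    ∃ (c : Fin 3 → ℝ) (κ : ℝ × ℝ), ∀ Φ : ℝ × ℝ × ℝ × (ℝ × ℝ) → ℝ≥0∞, Measurable Φ →
      ∫⁻ t, Φ ((po a (up5 b m s t) (m + 1) q).1, (po a (up5 b m s t) (m + 2) q).1, (po a (up5 b m s t) (m + 3) q).1,
        po a (up5 b m s t) (m + 5) q) ∂un5 ≤
      ENNReal.ofReal s⁻¹ ^ 5 * ∫⁻ w in sqo κ ρ, ∫⁻ x₁ in Icc (c 0 - ρ / 2) (c 0 + ρ / 2),
        ∫⁻ x₂ in Icc (c 1 - ρ / 2) (c 1 + ρ / 2), ∫⁻ x₃ in Icc (c 2 - ρ / 2) (c 2 + ρ / 2), Φ (x₁, x₂, x₃, w) := by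
  set z := po a b m q with hz
  set y1 := gg a (b m) z.1 z.2 with hy1
  set y2 := gg a (b (m + 1)) y1 z.1 with hy2
  set y3 := gg a (b (m + 2)) y2 y1 with hy3
  set y4 := gg a (b (m + 3)) y3 y2 with hy4
  set y5 := gg a (b (m + 4)) y4 y3 with hy5
  refine ⟨![y1, y2, y3], (y5 - ρ / 2, y4 - ρ / 2), fun Φ hΦ => ?_⟩
  -- the positions
  have p0 : ∀ t : Fin 5 → ℝ, po a (up5 b m s t) m q = z := fun t => po_congr (fun j hj => up5_lt b m s t hj) q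
  have pk : ∀ (t : Fin 5 → ℝ) (k : ℕ) (hk : k < 5), po a (up5 b m s t) (m + k + 1) q =
      (gg a (b (m + k)) (po a (up5 b m s t) (m + k) q).1 (po a (up5 b m s t) (m + k) q).2 + s * t ⟨k, hk⟩,
        (po a (up5 b m s t) (m + k) q).1) := by
    intro t k hk
    show st a (up5 b m s t (m + k)) (po a (up5 b m s t) (m + k) q) = _
    rw [up5_at b m s t k hk]
    unfold st gg
    refine Prod.ext ?_ rfl
    simp only
    ring
  have hΨ : Measurable fun t : Fin 5 → ℝ => Φ ((po a (up5 b m s t) (m + 1) q).1, (po a (up5 b m s t) (m + 2) q).1,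
      (po a (up5 b m s t) (m + 3) q).1, po a (up5 b m s t) (m + 5) q) := by
    have h1 := po_cont a b m s q (m + 1)
    have h2 := po_cont a b m s q (m + 2)
    have h3 := po_cont a b m s q (m + 3)
    have h5 := po_cont a b m s q (m + 5)
    exact hΦ.comp (h1.fst.prodMk (h2.fst.prodMk (h3.fst.prodMk h5))).measurable
  rw [un5_nest hΨ]
  have hn := nest hρ hs (b m) (b (m + 1)) (b (m + 2)) (b (m + 3)) (b (m + 4)) z hy1 hy2 hy3 hy4 hy5 hΦ
  refine le_trans (le_of_eq ?_) (hn.trans (mul_le_mul_of_nonneg_left (le_of_eq ?_) zero_le))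
  · refine lintegral_congr fun u0 => lintegral_congr fun u1 => lintegral_congr fun u2 => lintegral_congr fun u3 =>
      lintegral_congr fun u4 => ?_
    set t : Fin 5 → ℝ := ![u0, u1, u2, u3, u4] with ht
    set X1 := gg a (b m) z.1 z.2 + s * u0 with hX1
    set X2 := gg a (b (m + 1)) X1 z.1 + s * u1 with hX2
    set X3 := gg a (b (m + 2)) X2 X1 + s * u2 with hX3
    set X4 := gg a (b (m + 3)) X3 X2 + s * u3 with hX4
    set X5 := gg a (b (m + 4)) X4 X3 + s * u4 with hX5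
    have q1 : po a (up5 b m s t) (m + 1) q = (X1, z.1) := by
      have h := pk t 0 (by norm_num)
      rw [add_zero, p0] at h
      exact h
    have q2 : po a (up5 b m s t) (m + 2) q = (X2, X1) := by
      have h := pk t 1 (by norm_num)
      rw [q1] at h
      exact h
    have q3 : po a (up5 b m s t) (m + 3) q = (X3, X2) := by
      have h := pk t 2 (by norm_num)
      rw [q2] at h
      exact h
    have q4 : po a (up5 b m s t) (m + 4) q = (X4, X3) := by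
      have h := pk t 3 (by norm_num)
      rw [q3] at h
      exact h
    have q5 : po a (up5 b m s t) (m + 5) q = (X5, X4) := by
      have h := pk t 4 (by norm_num)
      rw [q4] at h
      exact h
    rw [q1, q2, q3, q5]
  · -- the order of integration
    simp only [Matrix.cons_val_zero, Matrix.cons_val_one, Matrix.cons_val_two, Matrix.head_cons, Matrix.tail_cons]
    have hsq : ∀ G : ℝ × ℝ → ℝ≥0∞, Measurable G → ∫⁻ w in sqo (y5 - ρ / 2, y4 - ρ / 2) ρ, G w =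
        ∫⁻ x4 in Ico (y4 - ρ / 2) (y4 - ρ / 2 + ρ), ∫⁻ x5 in Ico (y5 - ρ / 2) (y5 - ρ / 2 + ρ), G (x5, x4) := by
      intro G hG
      unfold sqo
      rw [Measure.volume_eq_prod, ← Measure.prod_restrict, lintegral_prod_symm _ hG.aemeasurable]
    have e3 : ∀ x1 x2 : ℝ, ∫⁻ x3 in Icc (y3 - ρ / 2) (y3 + ρ / 2), ∫⁻ x4 in Ico (y4 - ρ / 2) (y4 - ρ / 2 + ρ),
        ∫⁻ x5 in Ico (y5 - ρ / 2) (y5 - ρ / 2 + ρ), Φ (x1, x2, x3, (x5, x4)) =
        ∫⁻ w in sqo (y5 - ρ / 2, y4 - ρ / 2) ρ, ∫⁻ x3 in Icc (y3 - ρ / 2) (y3 + ρ / 2), Φ (x1, x2, x3, w) := by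
      intro x1 x2
      refine Eq.trans ?_ (lintegral_lintegral_swap (f := fun x3 w => Φ (x1, x2, x3, w)) (hΦ.comp (by fun_prop :
        Measurable fun p : ℝ × (ℝ × ℝ) => (x1, x2, p.1, p.2))).aemeasurable)
      refine lintegral_congr fun x3 => ?_
      exact (hsq (fun w => Φ (x1, x2, x3, w)) (hΦ.comp (by fun_prop : Measurable fun w : ℝ × ℝ => (x1, x2, x3, w)))).symm
    have e2 : ∀ x1 : ℝ, ∫⁻ x2 in Icc (y2 - ρ / 2) (y2 + ρ / 2), ∫⁻ w in sqo (y5 - ρ / 2, y4 - ρ / 2) ρ,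
        ∫⁻ x3 in Icc (y3 - ρ / 2) (y3 + ρ / 2), Φ (x1, x2, x3, w) =
        ∫⁻ w in sqo (y5 - ρ / 2, y4 - ρ / 2) ρ, ∫⁻ x2 in Icc (y2 - ρ / 2) (y2 + ρ / 2),
          ∫⁻ x3 in Icc (y3 - ρ / 2) (y3 + ρ / 2), Φ (x1, x2, x3, w) := by
      intro x1
      refine lintegral_lintegral_swap (Measurable.aemeasurable ?_)
      exact Measurable.lintegral_prod_right' (f := fun p : (ℝ × (ℝ × ℝ)) × ℝ => Φ (x1, p.1.1, p.2, p.1.2))
        (hΦ.comp (by fun_prop))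
    have e1 : ∫⁻ x1 in Icc (y1 - ρ / 2) (y1 + ρ / 2), ∫⁻ w in sqo (y5 - ρ / 2, y4 - ρ / 2) ρ,
        ∫⁻ x2 in Icc (y2 - ρ / 2) (y2 + ρ / 2), ∫⁻ x3 in Icc (y3 - ρ / 2) (y3 + ρ / 2), Φ (x1, x2, x3, w) =
        ∫⁻ w in sqo (y5 - ρ / 2, y4 - ρ / 2) ρ, ∫⁻ x1 in Icc (y1 - ρ / 2) (y1 + ρ / 2),
          ∫⁻ x2 in Icc (y2 - ρ / 2) (y2 + ρ / 2), ∫⁻ x3 in Icc (y3 - ρ / 2) (y3 + ρ / 2), Φ (x1, x2, x3, w) := by
      refine lintegral_lintegral_swap (Measurable.aemeasurable ?_)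
      refine Measurable.lintegral_prod_right' (f := fun p : (ℝ × (ℝ × ℝ)) × ℝ =>
        ∫⁻ x3 in Icc (y3 - ρ / 2) (y3 + ρ / 2), Φ (p.1.1, p.2, x3, p.1.2)) ?_
      exact Measurable.lintegral_prod_right' (f := fun p : ((ℝ × (ℝ × ℝ)) × ℝ) × ℝ => Φ (p.1.1.1, p.1.2, p.2, p.1.1.2))
        (hΦ.comp (by fun_prop))
    rw [← e1]
    refine lintegral_congr fun x1 => ?_
    rw [← e2]
    refine lintegral_congr fun x2 => ?_
    exact e3 x1 x2

end Pool.Agent.Helper8.AF
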