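import Pool.Agent.Helper82.QR.Tan
import Pool.Agent.Helper95.PV.Meas

/-!
# Project AF: negative moments of `A cos 2πx + B`
-/

set_option autoImplicit false

namespace Pool.Agent.Helper8.AF

open MeasureTheory Real Set
open scoped ENNReal
open Pool.Agent.Helper82.QR (cs sn)

lemma sin_ge (u : ℝ) : 2 * ‖((u : ℝ) : UnitAddCircle)‖ ≤ |Real.sin (π * u)| := by
  have h0 : ‖((u : ℝ) : UnitAddCircle)‖ = |u - round u| := by
    rw [AddCircle.norm_eq]
    simp
  rw [h0]
  set v := u - round u with hv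
  have hv1 : |v| ≤ 1 / 2 := abs_sub_round u
  have h1 : |Real.sin (π * u)| = |Real.sin (π * |v|)| := by
    have e1 : π * u = π * v + (round u : ℝ) * π := by rw [hv]; ring
    have e2 : |Real.sin (π * u)| = |Real.sin (π * v)| := by
      rw [e1, Real.sin_add_int_mul_pi, abs_mul]
      have : |((-1 : ℝ) ^ (round u))| = 1 := by
        rw [abs_zpow, abs_neg, abs_one, one_zpow]
      rw [this, one_mul]
    rw [e2]
    rcases abs_cases v with ⟨h, _⟩ | ⟨h, _⟩
    · rw [h]
    · rw [h, mul_neg, Real.sin_neg, abs_neg]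
  have hpi := Real.pi_pos
  have h2 : 0 ≤ π * |v| := by positivity
  have h3 : π * |v| ≤ π / 2 := by nlinarith
  have h4 := Real.mul_le_sin h2 h3
  have h5 : 2 / π * (π * |v|) = 2 * |v| := by field_simp
  rw [h5] at h4
  rw [h1]
  exact h4.trans (le_abs_self _)

theorem lev0 (φ : ℝ) {t : ℝ} (ht : 0 ≤ t) :
    volume {x : UnitAddCircle | |cs x - Real.cos (2 * π * φ)| < t} ≤ ENNReal.ofReal (√(2 * t)) := by
  have hsub : {x : UnitAddCircle | |cs x - Real.cos (2 * π * φ)| < t} ⊆
      {x | dist x ((φ : ℝ) : UnitAddCircle) < √(t / 8)} ∪ {x | dist x (((-φ : ℝ)) : UnitAddCircle) < √(t / 8)} := by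
    intro x hx
    obtain ⟨u, rfl⟩ := QuotientAddGroup.mk_surjective x
    change |cs ((u : ℝ) : UnitAddCircle) - Real.cos (2 * π * φ)| < t at hx
    rw [Pool.Agent.Helper82.QR.cs_coe] at hx
    by_contra hcon
    simp only [mem_union, mem_ofPred_eq, not_or, not_lt] at hcon
    obtain ⟨h1, h2⟩ := hcon
    have e1 : dist (((u : ℝ) : UnitAddCircle)) ((φ : ℝ) : UnitAddCircle) = ‖((u - φ : ℝ) : UnitAddCircle)‖ := by
      rw [dist_eq_norm]
      norm_cast
    have e2 : dist (((u : ℝ) : UnitAddCircle)) ((-φ : ℝ) : UnitAddCircle) = ‖((u + φ : ℝ) : UnitAddCircle)‖ := by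
      rw [dist_eq_norm, ← AddCircle.coe_sub, sub_neg_eq_add]
    have h1' : √(t / 8) ≤ ‖((u - φ : ℝ) : UnitAddCircle)‖ := by rw [← e1]; exact h1
    have h2' : √(t / 8) ≤ ‖((u + φ : ℝ) : UnitAddCircle)‖ := by rw [← e2]; exact h2
    have h3 := sin_ge (u - φ)
    have h4 := sin_ge (u + φ)
    have h5 : |Real.cos (2 * π * u) - Real.cos (2 * π * φ)| = 2 * |Real.sin (π * (u + φ))| * |Real.sin (π * (u - φ))| := by
      rw [Real.cos_sub_cos]
      have e3 : (2 * π * u + 2 * π * φ) / 2 = π * (u + φ) := by ring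
      have e4 : (2 * π * u - 2 * π * φ) / 2 = π * (u - φ) := by ring
      rw [e3, e4, abs_mul, abs_mul, abs_neg, abs_two]
    rw [h5] at hx
    have hs : 0 ≤ √(t / 8) := Real.sqrt_nonneg _
    have h6 : 2 * √(t / 8) ≤ |Real.sin (π * (u - φ))| := by linarith
    have h7 : 2 * √(t / 8) ≤ |Real.sin (π * (u + φ))| := by linarith
    have h8 : (2 * √(t / 8)) * (2 * √(t / 8)) ≤ |Real.sin (π * (u + φ))| * |Real.sin (π * (u - φ))| :=
      mul_le_mul h7 h6 (by positivity) (abs_nonneg _)
    have h9 : √(t / 8) * √(t / 8) = t / 8 := Real.mul_self_sqrt (by positivity)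
    nlinarith
  refine (measure_mono hsub).trans ((measure_union_le _ _).trans ?_)
  refine (add_le_add (Pool.Agent.Helper95.PV.vol_ball _ _) (Pool.Agent.Helper95.PV.vol_ball _ _)).trans ?_
  rw [← ENNReal.ofReal_add (by positivity) (by positivity)]
  apply ENNReal.ofReal_le_ofReal
  have e : √(2 * t) = 4 * √(t / 8) := by
    have : 2 * t = 4 ^ 2 * (t / 8) := by ring
    rw [this, Real.sqrt_mul (by norm_num), Real.sqrt_sq (by norm_num)]
  rw [e]
  linarith

lemma cs_le (x : UnitAddCircle) : |cs x| ≤ 1 := by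
  have h := Pool.Agent.Helper82.QR.sn_cs x
  rw [abs_le]
  constructor <;> nlinarith [sq_nonneg (sn x)]

/-- the level sets -/
theorem lev (A B : ℝ) (hM : 1 ≤ max |A| |B|) {t : ℝ} (ht : 0 ≤ t) :
    volume {x : UnitAddCircle | |A * cs x + B| < t} ≤ ENNReal.ofReal (2 * √t) := by
  have hcs : ∀ x, |cs x| ≤ 1 := cs_le
  rcases lt_or_ge (2 * |A|) |B| with h | h
  · -- the constant dominates
    have hB : 1 ≤ |B| := by
      rcases max_choice |A| |B| with h1 | h1
      · rw [h1] at hM
        linarith [abs_nonneg A]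
      · rw [h1] at hM
        exact hM
    rcases le_or_gt t (1 / 2) with h2 | h2
    · have : {x : UnitAddCircle | |A * cs x + B| < t} = ∅ := by
        ext x
        simp only [mem_ofPred_eq, mem_empty_iff_false, iff_false, not_lt]
        have h3 : |A * cs x| ≤ |A| := by
          rw [abs_mul]
          exact mul_le_of_le_one_right (abs_nonneg _) (hcs x)
        have h4 : |B| - |A * cs x| ≤ |A * cs x + B| := by
          have := abs_sub_abs_le_abs_sub B (-(A * cs x))
          rw [abs_neg, sub_neg_eq_add, add_comm B] at this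
          exact this
        linarith
      rw [this, measure_empty]
      exact zero_le
    · refine prob_le_one.trans ?_
      rw [← ENNReal.ofReal_one]
      apply ENNReal.ofReal_le_ofReal
      have : (1 : ℝ) / 2 ≤ √t := by
        rw [Real.le_sqrt (by norm_num) ht]
        linarith
      linarith
  · have hA : 1 / 2 ≤ |A| := by
      rcases max_choice |A| |B| with h1 | h1
      · rw [h1] at hM
        linarith
      · rw [h1] at hM
        linarith
    have hA0 : A ≠ 0 := by
      intro h0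
      rw [h0, abs_zero] at hA
      linarith
    set c : ℝ := max (-1) (min 1 (-B / A)) with hc
    have hc1 : -1 ≤ c := le_max_left _ _
    have hc2 : c ≤ 1 := max_le (by norm_num) (min_le_left _ _)
    have hφ : Real.cos (2 * π * (Real.arccos c / (2 * π))) = c := by
      rw [mul_div_cancel₀ _ (by positivity), Real.cos_arccos hc1 hc2]
    have hsub : {x : UnitAddCircle | |A * cs x + B| < t} ⊆
        {x | |cs x - Real.cos (2 * π * (Real.arccos c / (2 * π)))| < 2 * t} := by
      intro x hx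
      simp only [mem_ofPred_eq] at hx ⊢
      rw [hφ]
      have h3 := abs_le.1 (hcs x)
      have h4 : |cs x - c| ≤ |cs x - -B / A| := by
        rw [hc]
        rcases le_or_gt (-B / A) (-1) with h5 | h5
        · rw [min_eq_right (by linarith), max_eq_left h5, abs_of_nonneg (by linarith), abs_of_nonneg (by linarith)]
          linarith
        · rcases le_or_gt (-B / A) 1 with h6 | h6
          · rw [min_eq_right h6, max_eq_right h5.le]
          · rw [min_eq_left h6.le, max_eq_right (by norm_num), abs_of_nonpos (by linarith), abs_of_nonpos (by linarith)]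
            linarith
      have h5 : |A * cs x + B| = |A| * |cs x - -B / A| := by
        rw [← abs_mul]
        congr 1
        field_simp
        ring
      rw [h5] at hx
      have h6 := abs_nonneg (cs x - -B / A)
      nlinarith
    refine (measure_mono hsub).trans ((lev0 _ (by linarith)).trans ?_)
    apply ENNReal.ofReal_le_ofReal
    have : 2 * (2 * t) = 2 ^ 2 * t := by ring
    rw [this, Real.sqrt_mul (by norm_num), Real.sqrt_sq (by norm_num)]

/-- the moment of order `- 1 / 4` -/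
theorem negmom1 (A B : ℝ) (hM : 1 ≤ max |A| |B|) :
    ∫⁻ x : UnitAddCircle, ENNReal.ofReal |A * cs x + B| ^ (-(1 / 4) : ℝ) ≤ 9 := by
  have hm : Measurable fun x : UnitAddCircle => |A * cs x + B| :=
    ((Pool.Agent.Helper82.QR.cs_meas.const_mul A).add_const B).norm
  have hset : ∀ k : ℕ, MeasurableSet {x : UnitAddCircle | |A * cs x + B| < (1 / 16) ^ k} := fun k =>
    measurableSet_lt hm measurable_const
  have key : ∀ x : UnitAddCircle, ENNReal.ofReal |A * cs x + B| ^ (-(1 / 4) : ℝ) ≤
      1 + ∑' k : ℕ, ({x : UnitAddCircle | |A * cs x + B| < (1 / 16) ^ k}).indicator (fun _ => (2 : ℝ≥0∞) ^ (k + 1)) x := by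
    intro x
    set f := |A * cs x + B| with hf
    have hf0 : 0 ≤ f := abs_nonneg _
    rcases le_or_gt 1 f with h1 | h1
    · refine le_trans ?_ le_self_add
      have h2 : (1 : ℝ≥0∞) ≤ ENNReal.ofReal f := by
        rw [← ENNReal.ofReal_one]
        exact ENNReal.ofReal_le_ofReal h1
      calc ENNReal.ofReal f ^ (-(1 / 4) : ℝ) ≤ 1 ^ (-(1 / 4) : ℝ) := by
            rw [ENNReal.rpow_neg, ENNReal.rpow_neg]
            exact ENNReal.inv_le_inv.2 (ENNReal.rpow_le_rpow h2 (by norm_num))
        _ = 1 := ENNReal.one_rpow _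
    rcases hf0.eq_or_lt with h2 | h2
    · -- all terms occur
      have h3 : ∑' k : ℕ, ({x : UnitAddCircle | |A * cs x + B| < (1 / 16) ^ k}).indicator (fun _ => (2 : ℝ≥0∞) ^ (k + 1)) x = ⊤ := by
        rw [← top_le_iff, ← ENNReal.tsum_const_eq_top_of_ne_zero (α := ℕ) (one_ne_zero (α := ℝ≥0∞))]
        refine ENNReal.tsum_le_tsum fun k => ?_
        rw [indicator_of_mem (show x ∈ {x : UnitAddCircle | |A * cs x + B| < (1 / 16) ^ k} by
          rw [mem_ofPred_eq, ← hf, ← h2]
          positivity)]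
        exact one_le_pow₀ (by norm_num)
      rw [h3, add_top]
      exact le_top
    · -- one term
      have h3 : ∃ k : ℕ, (1 / 16 : ℝ) ^ (k + 1) ≤ f ∧ f < (1 / 16) ^ k := by
        obtain ⟨n, hn⟩ := exists_pow_lt_of_lt_one h2 (by norm_num : (1 / 16 : ℝ) < 1)
        have hP : ∃ n : ℕ, (1 / 16 : ℝ) ^ n ≤ f := ⟨n, hn.le⟩
        classical
        have h4 := Nat.find_spec hP
        have h5 : Nat.find hP ≠ 0 := by
          intro h0
          rw [h0, pow_zero] at h4
          linarith
        obtain ⟨k, hk⟩ := Nat.exists_eq_succ_of_ne_zero h5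
        refine ⟨k, ?_, ?_⟩
        · rw [hk] at h4
          exact h4
        · have := Nat.find_min hP (show k < Nat.find hP by omega)
          linarith [not_le.1 this]
      obtain ⟨k, hk1, hk2⟩ := h3
      refine le_trans ?_ le_add_self
      refine le_trans ?_ (ENNReal.le_tsum k)
      rw [indicator_of_mem (show x ∈ {x : UnitAddCircle | |A * cs x + B| < (1 / 16) ^ k} from hk2)]
      have h4 : ENNReal.ofReal ((1 / 16) ^ (k + 1)) ≤ ENNReal.ofReal f := ENNReal.ofReal_le_ofReal hk1
      calc ENNReal.ofReal f ^ (-(1 / 4) : ℝ) ≤ ENNReal.ofReal ((1 / 16) ^ (k + 1)) ^ (-(1 / 4) : ℝ) := by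
            rw [ENNReal.rpow_neg, ENNReal.rpow_neg]
            exact ENNReal.inv_le_inv.2 (ENNReal.rpow_le_rpow h4 (by norm_num))
        _ = (2 : ℝ≥0∞) ^ (k + 1) := by
            rw [ENNReal.ofReal_rpow_of_pos (by positivity), ← Real.rpow_natCast, ← Real.rpow_mul (by norm_num)]
            have e : (1 / 16 : ℝ) ^ (((k + 1 : ℕ) : ℝ) * (-(1 / 4))) = 2 ^ (k + 1) := by
              rw [show (1 / 16 : ℝ) = 2 ^ (-4 : ℝ) by norm_num [Real.rpow_neg], ← Real.rpow_mul (by norm_num),
                show (-4 : ℝ) * (((k + 1 : ℕ) : ℝ) * (-(1 / 4))) = ((k + 1 : ℕ) : ℝ) by ring, Real.rpow_natCast]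
            rw [e, ENNReal.ofReal_pow (by norm_num)]
            norm_num
  calc ∫⁻ x : UnitAddCircle, ENNReal.ofReal |A * cs x + B| ^ (-(1 / 4) : ℝ) ≤
      ∫⁻ x : UnitAddCircle, (1 + ∑' k : ℕ, ({x : UnitAddCircle | |A * cs x + B| < (1 / 16) ^ k}).indicator
        (fun _ => (2 : ℝ≥0∞) ^ (k + 1)) x) := lintegral_mono key
    _ = 1 + ∑' k : ℕ, 2 ^ (k + 1) * volume {x : UnitAddCircle | |A * cs x + B| < (1 / 16) ^ k} := by
        rw [lintegral_add_left measurable_const, lintegral_const, measure_univ, mul_one,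
          lintegral_tsum fun k => (measurable_const.indicator (hset k)).aemeasurable]
        congr 2
        funext k
        rw [lintegral_indicator (hset k), lintegral_const, Measure.restrict_apply MeasurableSet.univ, univ_inter]
    _ ≤ 1 + ∑' k : ℕ, 4 * (2⁻¹ : ℝ≥0∞) ^ k := by
        refine add_le_add_right (ENNReal.tsum_le_tsum fun k => ?_) _
        have h1 := lev A B hM (t := (1 / 16) ^ k) (by positivity)
        have h2 : √((1 / 16 : ℝ) ^ k) = (1 / 4) ^ k := by
          rw [show (1 / 16 : ℝ) = (1 / 4) ^ 2 by norm_num, ← pow_mul, mul_comm 2 k, pow_mul, Real.sqrt_sq (by positivity)]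
        rw [h2] at h1
        refine (mul_le_mul_of_nonneg_left h1 (zero_le)).trans (le_of_eq ?_)
        have h3 : (2 : ℝ≥0∞) ^ (k + 1) = ENNReal.ofReal (2 ^ (k + 1)) := by
          rw [ENNReal.ofReal_pow (by norm_num)]
          norm_num
        have h4 : 4 * (2⁻¹ : ℝ≥0∞) ^ k = ENNReal.ofReal (4 * (1 / 2) ^ k) := by
          rw [ENNReal.ofReal_mul (by norm_num), ENNReal.ofReal_pow (by norm_num), one_div, ENNReal.ofReal_inv_of_pos (by norm_num)]
          norm_num
        rw [h3, h4, ← ENNReal.ofReal_mul (by positivity)]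
        congr 1
        have h5 : (1 / 4 : ℝ) ^ k = (1 / 2) ^ k * (1 / 2) ^ k := by
          rw [← mul_pow]
          norm_num
        have h6 : (2 : ℝ) ^ k * (1 / 2) ^ k = 1 := by
          rw [← mul_pow]
          norm_num
        rw [h5, pow_succ]
        linear_combination (4 * (1 / 2) ^ k) * h6
    _ = 9 := by
        rw [ENNReal.tsum_mul_left, ENNReal.tsum_geometric_two]
        norm_num

theorem negmom (A B : ℝ) {M : ℝ} (hM0 : 0 < M) (hM : M ≤ max |A| |B|) :
    ∫⁻ x : UnitAddCircle, ENNReal.ofReal |A * cs x + B| ^ (-(1 / 4) : ℝ) ≤ 9 * ENNReal.ofReal M ^ (-(1 / 4) : ℝ) := by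
  have h1 : 1 ≤ max |A / M| |B / M| := by
    rw [abs_div, abs_div, abs_of_pos hM0, max_div_div_right hM0.le, le_div_iff₀ hM0, one_mul]
    exact hM
  have h2 : ∀ x : UnitAddCircle, ENNReal.ofReal |A * cs x + B| ^ (-(1 / 4) : ℝ) =
      ENNReal.ofReal M ^ (-(1 / 4) : ℝ) * ENNReal.ofReal |A / M * cs x + B / M| ^ (-(1 / 4) : ℝ) := by
    intro x
    rw [← ENNReal.mul_rpow_of_ne_top ENNReal.ofReal_ne_top ENNReal.ofReal_ne_top, ← ENNReal.ofReal_mul hM0.le]
    congr 2
    rw [← abs_of_pos hM0, ← abs_mul, abs_of_pos hM0]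
    congr 1
    field_simp
  have hm : Measurable fun x : UnitAddCircle => ENNReal.ofReal |A / M * cs x + B / M| ^ (-(1 / 4) : ℝ) :=
    (((Pool.Agent.Helper82.QR.cs_meas.const_mul _).add_const _).norm.ennreal_ofReal).pow_const _
  rw [lintegral_congr h2, lintegral_const_mul _ hm, mul_comm (9 : ℝ≥0∞)]
  exact mul_le_mul_of_nonneg_left (negmom1 _ _ h1) zero_le

/-- a short arc -/
theorem arc {g : UnitAddCircle → ℝ≥0∞} (hg : Measurable g) (c : UnitAddCircle) {s : ℝ} (hs : 0 < s) (hs1 : s ≤ 1) :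
    ∫⁻ u in Ioc (0 : ℝ) 1, g (c + ((s * u : ℝ) : UnitAddCircle)) ≤ ENNReal.ofReal s⁻¹ * ∫⁻ x, g x := by
  have hgc : Measurable fun x : UnitAddCircle => g (c + x) := hg.comp (measurable_const_add c)
  have hgr : Measurable fun u : ℝ => g (c + ((u : ℝ) : UnitAddCircle)) := hgc.comp AddCircle.measurable_mk'
  have h1 : ∫⁻ u in Ioc (0 : ℝ) 1, g (c + ((s * u : ℝ) : UnitAddCircle)) =
      ENNReal.ofReal s⁻¹ * ∫⁻ v in Ioc (0 : ℝ) s, g (c + ((v : ℝ) : UnitAddCircle)) := by
    have h2 := Real.map_volume_mul_left hs.ne'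
    have h3 : ∫⁻ u : ℝ, (Ioc (0 : ℝ) s).indicator (fun v => g (c + ((v : ℝ) : UnitAddCircle))) (s * u) =
        ENNReal.ofReal s⁻¹ * ∫⁻ v, (Ioc (0 : ℝ) s).indicator (fun v => g (c + ((v : ℝ) : UnitAddCircle))) v := by
      rw [← lintegral_map (f := (Ioc (0 : ℝ) s).indicator (fun v => g (c + ((v : ℝ) : UnitAddCircle))))
        (hgr.indicator measurableSet_Ioc) (measurable_const_mul s), h2, lintegral_smul_measure, abs_of_pos (inv_pos.2 hs)]
      rfl
    rw [lintegral_indicator measurableSet_Ioc] at h3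
    rw [← h3, ← lintegral_indicator measurableSet_Ioc]
    refine lintegral_congr fun u => ?_
    by_cases hu : u ∈ Ioc (0 : ℝ) 1
    · rw [indicator_of_mem hu, indicator_of_mem]
      exact ⟨mul_pos hs hu.1, by nlinarith [hu.2]⟩
    · rw [indicator_of_notMem hu, indicator_of_notMem]
      intro h
      apply hu
      have h4 : 0 < u := by
        by_contra h5
        push Not at h5
        nlinarith [h.1]
      refine ⟨h4, ?_⟩
      by_contra h5
      push Not at h5
      nlinarith [h.2]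
  rw [h1]
  refine mul_le_mul_of_nonneg_left ?_ zero_le
  calc ∫⁻ v in Ioc (0 : ℝ) s, g (c + ((v : ℝ) : UnitAddCircle)) ≤ ∫⁻ v in Ioc (0 : ℝ) (0 + 1), g (c + ((v : ℝ) : UnitAddCircle)) :=
        lintegral_mono_set (Ioc_subset_Ioc_right (by linarith))
    _ = ∫⁻ x, g (c + x) := (UnitAddCircle.measurePreserving_mk 0).lintegral_comp hgc
    _ = ∫⁻ x, g x := lintegral_add_left_eq_self g c

end Pool.Agent.Helper8.AF
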